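import Pool.Agent.H38.ZZ.Below

/-!
# The spectrum of the Zhang-Zagier height below `0.2497`

Method (`Pool.Agent.H38.ZZ.Below`): for an irreducible `p` of degree `d` and an auxiliary product of
integer polynomials and of smeared point charges, the discriminant of `p` (at least `1` in absolute
value) and the positivity of the logarithmic energy bound the height of `p` from below, up to
`O(log d / d)`, by a number that depends on the maximum of the auxiliary product on the two circles
`|z| = 1` and `|1 - z| = 1`. The certificate has `4 * 512` charges and five polynomials; the maximum is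
checked on `1063` intervals by the kernel.
-/

open Polynomial

namespace Pool.Agent.Results.MP_79ce01_nt.SpectrumBelow

/-- The minimal polynomial of `α` over `ℤ` (primitive, up to sign). -/
noncomputable def intMinpoly (α : ℂ) : ℤ[X] :=
  (IsLocalization.integerNormalization (nonZeroDivisors ℤ) (minpoly ℚ α)).primPart

/-- The Weil height `log M(α) / d`. -/
noncomputable def weil (α : ℂ) : ℝ :=
  Real.log ((intMinpoly α).map (Int.castRingHom ℂ)).mahlerMeasure / (intMinpoly α).natDegree

/-- The Zhang-Zagier height `H(α) = h(α) + h(1 - α)`. -/
noncomputable def zzHeight (α : ℂ) : ℝ := weil α + weil (1 - α)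

/-- **Only finitely many algebraic numbers have Zhang-Zagier height at most `0.2497`.** -/
theorem result : {α : ℂ | IsAlgebraic ℚ α ∧ zzHeight α ≤ 2497 / 10000}.Finite :=
  H38.ZZ.Below.finite_zz

end Pool.Agent.Results.MP_79ce01_nt.SpectrumBelow
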