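import Pool.Agent.H38.ZV.Dense

/-!
# The spectrum of the Zhang-Zagier height is dense in `[0.25069, ∞)`

Method: `s = t ^ 252 (t - 1) ^ 196 Φ(t) ^ 45`, `t = z - z ^ 2`, `Φ = t ^ 4 - 2 t ^ 3 + 4 t ^ 2 - 3 t + 1`,
and a real polynomial `G` of degree `700`; every real polynomial in `t` of large degree is an integer
polynomial up to a remainder of size about `E ^ N`, `E = max(|s|, |G|)`, on the circle `|z| = 1`. The
target is `λ ^ N (s ^ N + G ^ N)` with a real `λ > 1`; the integer polynomial is
`q = 2 t ^ n + 3` modulo `36`, with leading coefficient `2`, so that `q(z - z ^ 2)` is primitive and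
irreducible (Eisenstein). Outside a set of small measure on the circle `|q|` is about `λ ^ N E ^ N`, and
on this set the integral of `log |q|` is small by uniform integrability of `log |z - ζ|`. So the heights
tend to `(log λ + mean of log E) / 700`.
-/

open Polynomial

namespace Pool.Agent.Results.MP_79ce01_nt.SpectrumDense

/-- The minimal polynomial of `α` over `ℤ` (primitive, up to sign). -/
noncomputable def intMinpoly (α : ℂ) : ℤ[X] :=
  (IsLocalization.integerNormalization (nonZeroDivisors ℤ) (minpoly ℚ α)).primPart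

/-- The Weil height `log M(α) / d`. -/
noncomputable def weil (α : ℂ) : ℝ :=
  Real.log ((intMinpoly α).map (Int.castRingHom ℂ)).mahlerMeasure / (intMinpoly α).natDegree

/-- The Zhang-Zagier height `H(α) = h(α) + h(1 - α)`. -/
noncomputable def zzHeight (α : ℂ) : ℝ := weil α + weil (1 - α)

/-- The set of the positive values of `H`. -/
def S : Set ℝ := {t | 0 < t ∧ ∃ α : ℂ, IsAlgebraic ℚ α ∧ zzHeight α = t}

/-- **The set `S` is dense in `[0.25069, ∞)`.** -/
theorem result : Set.Ici (25069 / 100000 : ℝ) ⊆ closure S := by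
  intro x hx
  rw [Metric.mem_closure_iff]
  intro ε hε
  have hx' : (25069 / 100000 : ℝ) ≤ x := hx
  obtain ⟨α, h1, h2⟩ := H38.ZV.dense_num x hx' (min ε x) (lt_min hε (by linarith))
  rw [abs_lt] at h2
  have h3 := min_le_left ε x
  have h4 := min_le_right ε x
  refine ⟨zzHeight α, ⟨?_, α, h1, rfl⟩, ?_⟩
  · have : zzHeight α = H38.ZZ.zzHeight α := rfl
    rw [this]
    linarith
  · have : zzHeight α = H38.ZZ.zzHeight α := rfl
    rw [this, Real.dist_eq, abs_lt]
    constructor <;> linarith

end Pool.Agent.Results.MP_79ce01_nt.SpectrumDense
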